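import Pool.Agent.K1H27.PL.Stm2

/-!
# An inequality of Caccioppoli type (piece CAC)
-/

set_option autoImplicit false

namespace Pool.Agent.K1H37.PL

open Complex MeasureTheory Metric Set Filter Topology

/-- The operator `∂_x + i ∂_y`. -/
noncomputable def DD (g : ℂ → ℂ) (z : ℂ) : ℂ := fderiv ℝ g z 1 + I * fderiv ℝ g z I

/-- The integral of a derivative of a function with compact support vanishes. -/
theorem int_zero {g : ℂ → ℂ} (hg : ContDiff ℝ 1 g) (hc : HasCompactSupport g) (v : ℂ) :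
    ∫ z, fderiv ℝ g z v = 0 := by
  have hd : Differentiable ℝ g := hg.differentiable (by norm_num)
  have hcont : Continuous fun z => fderiv ℝ g z v :=
    (hg.continuous_fderiv (by norm_num)).clm_apply continuous_const
  have hcs : HasCompactSupport fun z => fderiv ℝ g z v :=
    (hc.fderiv ℝ).comp_left (g := fun L : ℂ →L[ℝ] ℂ => L v) (by simp)
  have h1 := integral_bilinear_hasFDerivAt_right_eq_neg_left_of_integrable (μ := volume)
    (f := fun _ : ℂ => (1 : ℂ)) (f' := fun _ => (0 : ℂ →L[ℝ] ℂ)) (g := g)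
    (g' := fun z => fderiv ℝ g z) (v := v) (B := ContinuousLinearMap.mul ℝ ℂ)
    (by simp) (by simpa using hcont.integrable_of_hasCompactSupport hcs)
    (by simpa using hg.continuous.integrable_of_hasCompactSupport hc)
    (fun x _ => hasFDerivAt_const _ _) (fun x _ => (hd x).hasFDerivAt)
  simpa using h1

/-- A smooth step. -/
noncomputable def step (d t : ℝ) : ℝ := Real.smoothTransition ((t - d) / (3 * d))

theorem step_contDiff (d : ℝ) : ContDiff ℝ 1 (step d) := by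
  unfold step
  exact Real.smoothTransition.contDiff.comp
    ((contDiff_id.sub contDiff_const).div_const _)

theorem step_mono {d : ℝ} (hd : 0 < d) : Monotone (step d) := by
  intro a b hab
  unfold step
  apply Real.smoothTransition.monotone
  gcongr

theorem step_zero {d t : ℝ} (hd : 0 < d) (h : t ≤ d) : step d t = 0 := by
  unfold step
  apply Real.smoothTransition.zero_of_nonpos
  exact div_nonpos_of_nonpos_of_nonneg (by linarith) (by positivity)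

theorem step_one {d t : ℝ} (hd : 0 < d) (h : 4 * d ≤ t) : step d t = 1 := by
  unfold step
  apply Real.smoothTransition.one_of_one_le
  rw [le_div_iff₀ (by positivity)]
  linarith

theorem step_nonneg (d t : ℝ) : 0 ≤ step d t := Real.smoothTransition.nonneg _

theorem step_le (d t : ℝ) : step d t ≤ 1 := Real.smoothTransition.le_one _

section comp

variable {f : ℂ → ℂ} {Ω : Set ℂ} (ψ : ℂ → ℝ) (η : ℝ → ℝ)

/-- The test function. -/
noncomputable def tf (f : ℂ → ℂ) (ψ : ℂ → ℝ) (η : ℝ → ℝ) (z : ℂ) : ℂ :=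
  (((ψ z) ^ 2 * η (‖f z‖ ^ 2) : ℝ) : ℂ) * ((starRingEnd ℂ) (f z) * deriv f z)

theorem an_f (hf : DifferentiableOn ℂ f Ω) (hΩ : IsOpen Ω) {z : ℂ} (hz : z ∈ Ω) :
    AnalyticAt ℂ f z := hf.analyticAt (hΩ.mem_nhds hz)

theorem cd_f (hf : DifferentiableOn ℂ f Ω) (hΩ : IsOpen Ω) {z : ℂ} (hz : z ∈ Ω) :
    ContDiffAt ℝ 1 f z := ((an_f hf hΩ hz).contDiffAt (n := 1)).restrict_scalars ℝ

theorem cd_f' (hf : DifferentiableOn ℂ f Ω) (hΩ : IsOpen Ω) {z : ℂ} (hz : z ∈ Ω) :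
    ContDiffAt ℝ 1 (deriv f) z :=
  ((an_f hf hΩ hz).deriv.contDiffAt (n := 1)).restrict_scalars ℝ

theorem cd_tf (hf : DifferentiableOn ℂ f Ω) (hΩ : IsOpen Ω) {z : ℂ} (hz : z ∈ Ω)
    (hψ : ContDiff ℝ 1 ψ) (hη : ContDiff ℝ 1 η) : ContDiffAt ℝ 1 (tf f ψ η) z := by
  unfold tf
  have h1 := cd_f hf hΩ hz
  have h2 := cd_f' hf hΩ hz
  have h3 : ContDiffAt ℝ 1 (fun z => (ψ z) ^ 2 * η (‖f z‖ ^ 2)) z :=
    (hψ.contDiffAt.pow 2).mul (hη.contDiffAt.comp z (h1.norm_sq ℝ))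
  have h4 : ContDiffAt ℝ 1 (fun z => (starRingEnd ℂ) (f z)) z :=
    conjCLE.contDiff.contDiffAt.comp z h1
  exact (ofRealCLM.contDiff.contDiffAt.comp z h3).mul (h4.mul h2)

/-- The derivative of the test function. -/
theorem DD_tf (hf : DifferentiableOn ℂ f Ω) (hΩ : IsOpen Ω) {z : ℂ} (hz : z ∈ Ω)
    (hψ : ContDiff ℝ 1 ψ) (hη : ContDiff ℝ 1 η) : DD (tf f ψ η) z =
      2 * ((ψ z) ^ 2 * (deriv η (‖f z‖ ^ 2) * ‖f z‖ ^ 2 + η (‖f z‖ ^ 2)) * ‖deriv f z‖ ^ 2 : ℝ)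
      + 2 * ψ z * (fderiv ℝ ψ z 1 + I * fderiv ℝ ψ z I) * η (‖f z‖ ^ 2)
        * ((starRingEnd ℂ) (f z) * deriv f z) := by
  have hψd : HasFDerivAt ψ (fderiv ℝ ψ z) z :=
    (hψ.differentiable (by norm_num) z).hasFDerivAt
  have hfa := an_f hf hΩ hz
  have hfd : HasFDerivAt f (deriv f z • (1 : ℂ →L[ℝ] ℂ)) z :=
    hfa.differentiableAt.hasDerivAt.complexToReal_fderiv
  have hfd' : HasFDerivAt (deriv f) (deriv (deriv f) z • (1 : ℂ →L[ℝ] ℂ)) z :=
    hfa.deriv.differentiableAt.hasDerivAt.complexToReal_fderiv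
  have hu := hfd.norm_sq
  have hη' : HasDerivAt η (deriv η (‖f z‖ ^ 2)) (‖f z‖ ^ 2) :=
    (hη.differentiable (by norm_num) _).hasDerivAt
  have hηu := hη'.comp_hasFDerivAt z hu
  have hre := (hψd.pow 2).mul hηu
  have hcj : HasFDerivAt (fun z => (starRingEnd ℂ) (f z))
      ((conjCLE : ℂ →L[ℝ] ℂ).comp (deriv f z • (1 : ℂ →L[ℝ] ℂ))) z :=
    (conjCLE : ℂ →L[ℝ] ℂ).hasFDerivAt.comp z hfd
  have hall := (ofRealCLM.hasFDerivAt.comp z hre).mul (hcj.mul hfd')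
  have hfe : fderiv ℝ (tf f ψ η) z = _ := HasFDerivAt.fderiv (f := tf f ψ η) hall
  unfold DD
  rw [hfe]
  have hns : ((‖f z‖ ^ 2 : ℝ) : ℂ) = f z * (starRingEnd ℂ) (f z) := by
    rw [mul_conj, normSq_eq_norm_sq]
  have hns' : ((‖deriv f z‖ ^ 2 : ℝ) : ℂ) = deriv f z * (starRingEnd ℂ) (deriv f z) := by
    rw [mul_conj, normSq_eq_norm_sq]
  set A := f z with hA
  set B := deriv f z with hB
  set Cc := deriv (deriv f) z
  set p := ψ z
  set p1 := fderiv ℝ ψ z 1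
  set pI := fderiv ℝ ψ z I
  set e := η (‖A‖ ^ 2)
  set e' := deriv η (‖A‖ ^ 2)
  have hXY : ((B.re : ℂ) * A.re + B.im * A.im) + I * (-((B.im : ℂ) * A.re) + B.re * A.im)
      = A * (starRingEnd ℂ) B := by
    apply Complex.ext <;> simp <;> ring
  have hI : I ^ 2 + 1 = 0 := by rw [I_sq]; ring
  simp
  push_cast at hns hns'
  rw [← hA, ← hB]
  change (p : ℂ) ^ 2 * e * ((starRingEnd ℂ) A * Cc) + (p : ℂ) ^ 2 * e * (B * (starRingEnd ℂ) B) +
        ((starRingEnd ℂ) A * B *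
            ((p : ℂ) ^ 2 * (e' * (2 * (B.re * A.re))) + (p : ℂ) ^ 2 * (e' * (2 * (B.im * A.im)))) +
          (starRingEnd ℂ) A * B * (e * (2 * p * p1))) +
      I *
        ((p : ℂ) ^ 2 * e * ((starRingEnd ℂ) A * (Cc * I)) +
            -((p : ℂ) ^ 2 * e * (B * ((starRingEnd ℂ) B * I))) +
          ((starRingEnd ℂ) A * B *
              (-((p : ℂ) ^ 2 * (e' * (2 * (B.im * A.re)))) + (p : ℂ) ^ 2 * (e' * (2 * (B.re * A.im)))) +
            (starRingEnd ℂ) A * B * (e * (2 * p * pI)))) = _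
  linear_combination ((p : ℂ) ^ 2 * e * (starRingEnd ℂ) A * Cc
    - (p : ℂ) ^ 2 * e * B * (starRingEnd ℂ) B) * hI
    + 2 * (p : ℂ) ^ 2 * e' * (starRingEnd ℂ) A * B * hXY
    - (2 * (p : ℂ) ^ 2 * e + 2 * (p : ℂ) ^ 2 * e' * (‖A‖ : ℂ) ^ 2) * hns'
    - 2 * (p : ℂ) ^ 2 * e' * B * (starRingEnd ℂ) B * hns

end comp

theorem zero_near {g : ℂ → ℂ} {z : ℂ} (h : g =ᶠ[𝓝 z] fun _ => 0) :
    ContDiffAt ℝ 1 g z ∧ DD g z = 0 := by
  refine ⟨contDiffAt_const.congr_of_eventuallyEq h, ?_⟩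
  unfold DD
  rw [h.fderiv_eq]
  simp

theorem key_re {f : ℂ → ℂ} {Ω : Set ℂ} {ψ : ℂ → ℝ} {η : ℝ → ℝ}
    (hf : DifferentiableOn ℂ f Ω) (hΩ : IsOpen Ω) {z : ℂ} (hz : z ∈ Ω)
    (hψ : ContDiff ℝ 1 ψ) (hη : ContDiff ℝ 1 η) (hψ0 : 0 ≤ ψ z) (hη0 : ∀ t, 0 ≤ η t)
    (hη1 : ∀ t, η t ≤ 1) (hηm : Monotone η) :
    (ψ z) ^ 2 * η (‖f z‖ ^ 2) * ‖deriv f z‖ ^ 2
      ≤ (DD (tf f ψ η) z).re + ‖fderiv ℝ ψ z 1 + I * fderiv ℝ ψ z I‖ ^ 2 * ‖f z‖ ^ 2 := by
  rw [DD_tf ψ η hf hΩ hz hψ hη]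
  set q : ℂ := (fderiv ℝ ψ z 1 : ℂ) + I * fderiv ℝ ψ z I
  set e := η (‖f z‖ ^ 2) with he
  have he0 : 0 ≤ e := hη0 _
  have he1 : e ≤ 1 := hη1 _
  have hd : 0 ≤ deriv η (‖f z‖ ^ 2) := hηm.deriv_nonneg
  have h1 : (2 * ((ψ z) ^ 2 * (deriv η (‖f z‖ ^ 2) * ‖f z‖ ^ 2 + e) * ‖deriv f z‖ ^ 2 : ℝ) : ℂ).re
      = 2 * ((ψ z) ^ 2 * (deriv η (‖f z‖ ^ 2) * ‖f z‖ ^ 2 + e) * ‖deriv f z‖ ^ 2) := by
    rw [← ofReal_ofNat, ← ofReal_mul, ofReal_re]
  have h2 : -(2 * ψ z * ‖q‖ * e * (‖f z‖ * ‖deriv f z‖)) ≤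
      (2 * (ψ z : ℂ) * q * e * ((starRingEnd ℂ) (f z) * deriv f z)).re := by
    have h3 := Complex.abs_re_le_norm (2 * (ψ z : ℂ) * q * e * ((starRingEnd ℂ) (f z) * deriv f z))
    have h4 : ‖2 * (ψ z : ℂ) * q * e * ((starRingEnd ℂ) (f z) * deriv f z)‖
        = 2 * ψ z * ‖q‖ * e * (‖f z‖ * ‖deriv f z‖) := by
      simp only [norm_mul, RCLike.norm_conj, Complex.norm_real, Real.norm_eq_abs,
        abs_of_nonneg hψ0, abs_of_nonneg he0]
      norm_num
    rw [h4] at h3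
    exact (abs_le.1 h3).1
  rw [add_re, h1]
  have h5 : 0 ≤ (ψ z) ^ 2 * (deriv η (‖f z‖ ^ 2) * ‖f z‖ ^ 2) * ‖deriv f z‖ ^ 2 := by positivity
  have h6 : 2 * ψ z * ‖q‖ * e * (‖f z‖ * ‖deriv f z‖)
      ≤ e * ((ψ z) ^ 2 * ‖deriv f z‖ ^ 2) + ‖q‖ ^ 2 * ‖f z‖ ^ 2 := by
    have h7 : 2 * (ψ z * ‖deriv f z‖) * (‖q‖ * ‖f z‖)
        ≤ (ψ z * ‖deriv f z‖) ^ 2 + (‖q‖ * ‖f z‖) ^ 2 := two_mul_le_add_sq _ _
    have h8 : e * (‖q‖ * ‖f z‖) ^ 2 ≤ 1 * (‖q‖ * ‖f z‖) ^ 2 :=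
      mul_le_mul_of_nonneg_right he1 (sq_nonneg _)
    have h9 := mul_le_mul_of_nonneg_left h7 he0
    nlinarith
  nlinarith

theorem core {f : ℂ → ℂ} {W : Set ℂ} (hW : IsOpen W) (hfc : ContinuousOn f W)
    (hfd : DifferentiableOn ℂ f {z | z ∈ W ∧ f z ≠ 0}) {c : ℂ} {r : ℝ} (hr : 0 ≤ r)
    (hcr : closedBall c r ⊆ W) : ∃ C : ENNReal, C ≠ ⊤ ∧ ∀ ε : ℝ, 0 < ε →
      ∫⁻ z in closedBall c r ∩ f ⁻¹' {w | 2 * ε ≤ ‖w‖}, ‖deriv f z‖ₑ ^ 2 ≤ C := by
  obtain ⟨δ, hδ, hδW⟩ := (isCompact_closedBall c r).exists_cthickening_subset_open hW hcr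
  rw [cthickening_closedBall hδ.le hr] at hδW
  let ψ : ContDiffBump c := ⟨r + δ / 2, r + δ, by linarith, by linarith⟩
  have hψs : tsupport ψ = closedBall c (r + δ) := ψ.tsupport_eq
  have hψd : ContDiff ℝ 1 ψ := ψ.contDiff
  have hBW : closedBall c (r + δ) ⊆ W := by rw [add_comm]; exact hδW
  have hΩ : IsOpen {z | z ∈ W ∧ f z ≠ 0} := by
    have := hfc.isOpen_inter_preimage hW (isOpen_compl_singleton (x := (0 : ℂ)))
    exact this
  have hcq : Continuous fun z => ((fderiv ℝ ψ z 1 : ℝ) : ℂ) + I * (fderiv ℝ ψ z I : ℝ) := by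
    have h1 := hψd.continuous_fderiv (by norm_num)
    fun_prop
  obtain ⟨K, hK⟩ := (isCompact_closedBall c (r + δ)).exists_bound_of_continuousOn
    (f := fun z => ‖((fderiv ℝ ψ z 1 : ℝ) : ℂ) + I * (fderiv ℝ ψ z I : ℝ)‖ ^ 2 * ‖f z‖ ^ 2)
    ((hcq.norm.pow 2).continuousOn.mul ((hfc.mono hBW).norm.pow 2))
  have hK' : ∀ z ∈ closedBall c (r + δ),
      ‖((fderiv ℝ ψ z 1 : ℝ) : ℂ) + I * (fderiv ℝ ψ z I : ℝ)‖ ^ 2 * ‖f z‖ ^ 2 ≤ K := by
    intro z hz
    exact (le_abs_self _).trans (hK z hz)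
  have hK0 : 0 ≤ K := (by positivity : (0 : ℝ) ≤ _).trans
    (hK' c (mem_closedBall_self (by linarith)))
  refine ⟨ENNReal.ofReal (∫ z, (closedBall c (r + δ)).indicator (fun _ => K) z),
    ENNReal.ofReal_ne_top, fun ε hε => ?_⟩
  set η := step (ε ^ 2) with hη
  have hε2 : 0 < ε ^ 2 := by positivity
  have hηd : ContDiff ℝ 1 η := step_contDiff _
  set g := tf f ψ η with hg
  -- where the test function vanishes locally
  have hout : ∀ z ∉ closedBall c (r + δ), g =ᶠ[𝓝 z] fun _ => 0 := by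
    intro z hz
    rw [← hψs] at hz
    filter_upwards [(isClosed_tsupport ψ).isOpen_compl.mem_nhds hz] with w hw
    have : ψ w = 0 := image_eq_zero_of_notMem_tsupport hw
    simp [hg, tf, this]
  have hlow : ∀ z ∈ W, ‖f z‖ < ε → g =ᶠ[𝓝 z] fun _ => 0 := by
    intro z hz hlt
    have hc : ContinuousAt (fun w => ‖f w‖) z := (hfc.continuousAt (hW.mem_nhds hz)).norm
    filter_upwards [hc.eventually_lt_const hlt] with w hw
    have : η (‖f w‖ ^ 2) = 0 := step_zero hε2 (by gcongr)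
    simp [hg, tf, this]
  have hin : ∀ z ∈ W, ε ≤ ‖f z‖ → z ∈ {z | z ∈ W ∧ f z ≠ 0} := by
    intro z hz hle
    refine ⟨hz, fun h => ?_⟩
    rw [h, norm_zero] at hle
    linarith
  have hgd : ContDiff ℝ 1 g := by
    rw [contDiff_iff_contDiffAt]
    intro z
    by_cases hz : z ∈ closedBall c (r + δ)
    · rcases lt_or_ge (‖f z‖) ε with h | h
      · exact (zero_near (hlow z (hBW hz) h)).1
      · exact cd_tf _ _ hfd hΩ (hin z (hBW hz) h) hψd hηd
    · exact (zero_near (hout z hz)).1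
  have hgc : HasCompactSupport g := by
    refine HasCompactSupport.intro (isCompact_closedBall c (r + δ)) fun z hz => ?_
    exact (hout z hz).eq_of_nhds
  have hi : ∀ v : ℂ, Integrable fun z => fderiv ℝ g z v := by
    intro v
    have hcont : Continuous fun z => fderiv ℝ g z v :=
      (hgd.continuous_fderiv (by norm_num)).clm_apply continuous_const
    exact hcont.integrable_of_hasCompactSupport
      ((hgc.fderiv ℝ).comp_left (g := fun L : ℂ →L[ℝ] ℂ => L v) (by simp))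
  have hiD : Integrable (DD g) := (hi 1).add ((hi I).const_mul I)
  have hD0 : ∫ z, DD g z = 0 := by
    unfold DD
    rw [integral_add (hi 1) ((hi I).const_mul I), int_zero hgd hgc 1, integral_const_mul,
      int_zero hgd hgc I]
    simp
  have hiK : Integrable ((closedBall c (r + δ)).indicator fun _ => K) := by
    rw [integrable_indicator_iff measurableSet_closedBall]
    exact integrableOn_const (measure_closedBall_lt_top.ne)
  set h : ℂ → ℝ := fun z => (DD g z).re + (closedBall c (r + δ)).indicator (fun _ => K) z with hh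
  have hih : Integrable h := hiD.re.add hiK
  have hpt : ∀ z ∈ closedBall c (r + δ),
      (ψ z) ^ 2 * η (‖f z‖ ^ 2) * ‖deriv f z‖ ^ 2 ≤ h z := by
    intro z hz
    rw [hh]
    simp only [indicator_of_mem hz]
    rcases lt_or_ge (‖f z‖) ε with h | h
    · rw [(zero_near (hlow z (hBW hz) h)).2]
      have : η (‖f z‖ ^ 2) = 0 := step_zero hε2 (by gcongr)
      rw [this]
      simpa using hK0
    · have h1 := key_re (ψ := ψ) (η := η) hfd hΩ (hin z (hBW hz) h) hψd hηd ψ.nonneg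
        (step_nonneg _) (step_le _) (step_mono hε2)
      linarith [hK' z hz]
  have h0 : 0 ≤ h := by
    intro z
    by_cases hz : z ∈ closedBall c (r + δ)
    · refine le_trans ?_ (hpt z hz)
      have := step_nonneg (ε ^ 2) (‖f z‖ ^ 2)
      positivity
    · rw [hh]
      simp only [indicator_of_notMem hz, (zero_near (hout z hz)).2]
      simp
  have hint : ∫ z, h z = ∫ z, (closedBall c (r + δ)).indicator (fun _ => K) z := by
    have h2 : ∫ z, h z = (∫ z, (DD g z).re)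
        + (∫ z, (closedBall c (r + δ)).indicator (fun _ => K) z) := integral_add hiD.re hiK
    have h3 : ∫ z, (DD g z).re = 0 := by
      have h1 : ∫ z, (DD g z).re = (∫ z, DD g z).re := integral_re hiD
      rw [h1, hD0]
      rfl
    rw [h2, h3, zero_add]
  rw [← hint, ofReal_integral_eq_lintegral_ofReal hih (Eventually.of_forall h0)]
  have hms : MeasurableSet (closedBall c r ∩ f ⁻¹' {w | 2 * ε ≤ ‖w‖}) := by
    refine IsClosed.measurableSet ?_
    exact (hfc.mono hcr).preimage_isClosed_of_isClosed isClosed_closedBall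
      (isClosed_le continuous_const continuous_norm)
  refine le_trans (setLIntegral_mono' hms (g := fun z => ENNReal.ofReal (h z)) ?_)
    (setLIntegral_le_lintegral _ _)
  intro z hz
  have hz1 : z ∈ closedBall c (r + δ) := closedBall_subset_closedBall (by linarith) hz.1
  have h1 := hpt z hz1
  have h2 : ψ z = 1 := ψ.one_of_mem_closedBall
    (closedBall_subset_closedBall (show r ≤ r + δ / 2 by linarith) hz.1)
  have h3 : η (‖f z‖ ^ 2) = 1 := by
    refine step_one hε2 ?_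
    have h4 : 2 * ε ≤ ‖f z‖ := hz.2
    nlinarith
  rw [h2, h3, one_pow, one_mul, one_mul] at h1
  have h5 : ‖deriv f z‖ₑ ^ 2 = ENNReal.ofReal (‖deriv f z‖ ^ 2) := by
    rw [← ofReal_norm, ENNReal.ofReal_pow (norm_nonneg _)]
  rw [h5]
  exact ENNReal.ofReal_le_ofReal h1

/-- The Caccioppoli inequality. -/
theorem t_CAC : Pool.Agent.K1H27.PL.S_CAC := by
  intro f W hW hfc hfd c r hcr
  rcases lt_or_ge r 0 with hr | hr
  · have : {z | z ∈ closedBall c r ∧ f z ≠ 0} = ∅ := by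
      rw [closedBall_eq_empty.2 hr]
      ext z; simp
    rw [this]
    simp
  obtain ⟨C, hC, hCb⟩ := core hW hfc hfd hr hcr
  have hun : {z | z ∈ closedBall c r ∧ f z ≠ 0}
      = ⋃ n : ℕ, closedBall c r ∩ f ⁻¹' {w | 2 * (1 / ((n : ℝ) + 1)) ≤ ‖w‖} := by
    ext z
    simp only [mem_ofPred_eq, mem_iUnion, mem_inter_iff, mem_preimage]
    constructor
    · rintro ⟨h1, h2⟩
      have h3 : 0 < ‖f z‖ / 2 := by have := norm_pos_iff.2 h2; linarith
      obtain ⟨n, hn⟩ := exists_nat_one_div_lt h3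
      exact ⟨n, h1, by linarith⟩
    · rintro ⟨n, h1, h2⟩
      refine ⟨h1, fun h => ?_⟩
      rw [h, norm_zero] at h2
      have : (0 : ℝ) < 1 / ((n : ℝ) + 1) := by positivity
      linarith
  rw [hun, setLIntegral_iUnion_of_directed]
  · refine ne_top_of_le_ne_top hC (iSup_le fun n => hCb _ (by positivity))
  · refine Monotone.directed_le fun m n hmn => ?_
    refine inter_subset_inter_right _ (preimage_mono fun w hw => ?_)
    have h1 : 1 / ((n : ℝ) + 1) ≤ 1 / ((m : ℝ) + 1) := by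
      have : (m : ℝ) ≤ n := by exact_mod_cast hmn
      gcongr
    have h2 : 2 * (1 / ((m : ℝ) + 1)) ≤ ‖w‖ := hw
    show 2 * (1 / ((n : ℝ) + 1)) ≤ ‖w‖
    linarith

end Pool.Agent.K1H37.PL
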