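import Pool.Agent.K1H49.PL.Stm

set_option autoImplicit false

/-! # Ramsey theorem for the binary tree from the ultrafilters (project PL, piece RAM) -/

namespace Pool.Agent.K1H37.PL

open Pool.Agent.K1H49.PL Filter

/-- the tree with root `y` and subtrees `f`, `g` -/
def nd (y : Nd) (f g : Nd → Nd) : Nd → Nd
  | [] => y
  | false :: η => f η
  | true :: η => g η

/-- the copies of the tree of height `m` in the part of height `n` of `E` -/
def Cop : ℕ → ℕ → (Nd → Nd) → Set (Nd → Nd)
  | 0, 0, E => {fun _ => E []}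
  | 0, _ + 1, _ => ∅
  | n + 1, 0, E => {fun _ => E []} ∪ (Cop n 0 (fun η => E (false :: η)) ∪
      Cop n 0 (fun η => E (true :: η)))
  | n + 1, m + 1, E => {t | ∃ t0 ∈ Cop n m (fun η => E (false :: η)),
      ∃ t1 ∈ Cop n m (fun η => E (true :: η)), t = nd (E []) t0 t1} ∪
      (Cop n (m + 1) (fun η => E (false :: η)) ∪ Cop n (m + 1) (fun η => E (true :: η)))

theorem cop_finite (n : ℕ) : ∀ (m : ℕ) (E : Nd → Nd), (Cop n m E).Finite := by
  induction n with
  | zero =>
    rintro (_ | m) E
    · exact Set.finite_singleton _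
    · exact Set.finite_empty
  | succ n ih =>
    rintro (_ | m) E
    · exact (Set.finite_singleton _).union ((ih _ _).union (ih _ _))
    · refine Set.Finite.union ?_ ((ih _ _).union (ih _ _))
      refine (Set.Finite.image2 (nd (E [])) (ih m (fun η => E (false :: η)))
        (ih m (fun η => E (true :: η)))).subset ?_
      rintro t ⟨t0, h0, t1, h1, rfl⟩
      exact ⟨t0, h0, t1, h1, rfl⟩

/-- copies in a cone -/
theorem cop_cone {n m : ℕ} {E : Nd → Nd} (b : Bool) {t : Nd → Nd}
    (h : t ∈ Cop n m (fun η => E (b :: η))) : t ∈ Cop (n + 1) m E := by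
  cases m <;> cases b
  · exact Or.inr (Or.inl h)
  · exact Or.inr (Or.inr h)
  · exact Or.inr (Or.inl h)
  · exact Or.inr (Or.inr h)

theorem emb_prefix {e : Nd → Nd} (he : Emb e) (π τ : Nd) : e π <+: e (π ++ τ) := by
  induction τ using List.reverseRecOn with
  | nil => simp
  | append_singleton τ d ih =>
    rw [← List.append_assoc]
    exact ih.trans ((List.prefix_append _ _).trans (he _ d))

/-- the copies given by embeddings -/
theorem mem_cop (n : ℕ) : ∀ (m : ℕ) (E e : Nd → Nd), Emb e →
    (∀ η : Nd, η.length ≤ m → (e η).length ≤ n) →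
    ∃ t ∈ Cop n m E, ∀ η : Nd, η.length ≤ m → t η = E (e η) := by
  induction n with
  | zero =>
    intro m E e he hl
    rcases m with _ | m
    · refine ⟨_, rfl, fun η hη => ?_⟩
      have h1 : e η = [] := List.length_eq_zero_iff.1 (Nat.le_zero.1 (hl η hη))
      rw [h1]
    · exfalso
      have h1 := hl [true] (by simp)
      have h2 := (he [] true).length_le
      simp only [List.length_append, List.nil_append, List.length_singleton] at h2
      omega
  | succ n ih =>
    intro m E e he hl
    rcases hr : e [] with _ | ⟨b, ρ⟩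
    · -- the root is the root
      rcases m with _ | m
      · refine ⟨fun _ => E [], Or.inl rfl, fun η hη => ?_⟩
        have h1 : η = [] := List.length_eq_zero_iff.1 (Nat.le_zero.1 hη)
        rw [h1, hr]
      · have hb : ∀ (b : Bool) (η : Nd), e (b :: η) = b :: (e (b :: η)).tail := by
          intro b η
          have h1 := he [] b
          rw [hr, List.nil_append] at h1
          have h2 : [b] <+: e (b :: η) := h1.trans (emb_prefix he [b] η)
          obtain ⟨t, ht⟩ := h2
          rw [← ht]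
          rfl
        have key : ∀ b : Bool, ∃ t ∈ Cop n m (fun η => E (b :: η)),
            ∀ η : Nd, η.length ≤ m → t η = E (e (b :: η)) := by
          intro b
          obtain ⟨t, h1, h2⟩ := ih m (fun η => E (b :: η)) (fun η => (e (b :: η)).tail) (by
            intro π d
            have h3 := he (b :: π) d
            rw [List.cons_append, hb b π, hb b (π ++ [d]), List.cons_append,
              List.cons_prefix_cons] at h3
            exact h3.2) (by
            intro η hη
            have h3 := hl (b :: η) (by simpa using hη)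
            rw [hb b η] at h3
            simpa using h3)
          refine ⟨t, h1, fun η hη => ?_⟩
          rw [h2 η hη]
          conv_rhs => rw [hb b η]
        obtain ⟨t0, h0, h0'⟩ := key false
        obtain ⟨t1, h1, h1'⟩ := key true
        refine ⟨nd (E []) t0 t1, Or.inl ⟨t0, h0, t1, h1, rfl⟩, ?_⟩
        rintro (_ | ⟨b, η⟩) hη
        · rw [hr]; rfl
        · have hη' : η.length ≤ m := by simpa using hη
          cases b
          · exact h0' η hη'
          · exact h1' η hη'
    · -- the root is in a cone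
      have hb : ∀ η : Nd, e η = b :: (e η).tail := by
        intro η
        have h1 := emb_prefix he [] η
        rw [hr, List.nil_append] at h1
        obtain ⟨t, ht⟩ := h1
        rw [← ht]
        rfl
      obtain ⟨t, h1, h2⟩ := ih m (fun η => E (b :: η)) (fun η => (e η).tail) (by
        intro π d
        have h3 := he π d
        rw [hb π, hb (π ++ [d]), List.cons_append, List.cons_prefix_cons] at h3
        exact h3.2) (by
        intro η hη
        have h3 := hl η hη
        rw [hb η] at h3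
        simpa using h3)
      refine ⟨t, cop_cone b h1, fun η hη => ?_⟩
      rw [h2 η hη]
      conv_rhs => rw [hb η]

section ultra

variable (U : Bool → Ultrafilter Nd)

/-- `F` holds for almost all copies of the tree of height `m` with root `y` -/
def Bd : ℕ → ((Nd → Nd) → Prop) → Nd → Prop
  | 0, F, y => F (fun _ => y)
  | m + 1, F, y => ∀ᶠ π in (U false : Filter Nd), Bd m (fun t0 =>
      ∀ᶠ π' in (U true : Filter Nd), Bd m (fun t1 => F (nd y t0 t1)) (y ++ π')) (y ++ π)

theorem bd_not (m : ℕ) : ∀ (F : (Nd → Nd) → Prop) (y : Nd),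
    Bd U m (fun t => ¬ F t) y ↔ ¬ Bd U m F y := by
  induction m with
  | zero => intro F y; rfl
  | succ m ih =>
    intro F y
    simp only [Bd, ih, Ultrafilter.eventually_not]

variable {U}

theorem build (hU1 : ∀ d, ∀ᶠ π in (U d : Filter Nd), ∃ τ, π = d :: τ)
    (hU2 : ∀ (d d' : Bool) (A : Set Nd), A ∈ U d ↔
      ∀ᶠ π in (U d : Filter Nd), {τ | π ++ τ ∈ A} ∈ U d') (n : ℕ) :
    ∀ (C : Set (ℕ × ((Nd → Nd) → Prop))), C.Finite → ∀ (x : Nd) (d : Bool),
      (∀ c ∈ C, ∀ᶠ π in (U d : Filter Nd), Bd U c.1 c.2 (x ++ π)) →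
      ∃ E : Nd → Nd, (x ++ [d]) <+: E [] ∧ Emb E ∧ ∀ c ∈ C, ∀ t ∈ Cop n c.1 E, c.2 t := by
  induction n with
  | zero =>
    intro C hC x d hx
    have h1 := (eventually_all_finite hC).2 hx
    obtain ⟨π, h2, τ, h3⟩ := (h1.and (hU1 d)).exists
    refine ⟨fun η => (x ++ π) ++ η, ?_, ?_, ?_⟩
    · simp only [List.append_nil]
      rw [h3]
      exact ⟨τ, by simp⟩
    · intro ρ d'
      simp
    · rintro ⟨m, F⟩ hc t ht
      rcases m with _ | m
      · have h4 : t = fun _ => x ++ π := by
          rw [show t = _ from ht]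
          simp
        have h5 := h2 _ hc
        simp only [Bd] at h5
        dsimp only
        rw [h4]
        exact h5
      · exact absurd ht (Set.notMem_empty _)
  | succ n ih =>
    intro C hC x d hx
    have h1 := (eventually_all_finite hC).2 hx
    have h2 : ∀ᶠ π in (U d : Filter Nd), ∀ c ∈ C, ∀ d' : Bool,
        ∀ᶠ π' in (U d' : Filter Nd), Bd U c.1 c.2 ((x ++ π) ++ π') := by
      refine (eventually_all_finite hC).2 fun c hc => ?_
      refine eventually_all.2 fun d' => ?_
      have h3 := (hU2 d d' {τ | Bd U c.1 c.2 (x ++ τ)}).1 (hx c hc)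
      refine h3.mono fun π hπ => ?_
      have h4 : {τ | π ++ τ ∈ {τ | Bd U c.1 c.2 (x ++ τ)}} =
          {τ | Bd U c.1 c.2 ((x ++ π) ++ τ)} := by
        ext τ
        simp only [Set.mem_ofPred_eq, List.append_assoc]
      rw [h4] at hπ
      exact hπ
    obtain ⟨π, ⟨h3, h4⟩, τ, h5⟩ := ((h1.and h2).and (hU1 d)).exists
    obtain ⟨y, hy⟩ : ∃ y, y = x ++ π := ⟨_, rfl⟩
    rw [← hy] at h3 h4
    have hxy : (x ++ [d]) <+: y := by
      rw [hy, h5]
      exact ⟨τ, by simp⟩
    -- the left subtree
    let φ : ℕ × ((Nd → Nd) → Prop) → ℕ × ((Nd → Nd) → Prop) := fun c =>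
      (c.1 - 1, fun t0 => ∀ᶠ π' in (U true : Filter Nd),
        Bd U (c.1 - 1) (fun t1 => c.2 (nd y t0 t1)) (y ++ π'))
    obtain ⟨E0, hE0, hE0', hP0⟩ := ih (C ∪ φ '' {c | c ∈ C ∧ 1 ≤ c.1})
      (hC.union ((hC.subset fun c hc => hc.1).image φ)) y false (by
        rintro c (hc | ⟨⟨m, F⟩, ⟨hc, hm⟩, rfl⟩)
        · exact h4 c hc false
        · obtain ⟨m, rfl⟩ : ∃ m', m = m' + 1 := ⟨m - 1, by dsimp only at hm; omega⟩
          exact h3 _ hc)
    -- the right subtree
    obtain ⟨E1, hE1, hE1', hP1⟩ := ih (C ∪ ⋃ c ∈ {c | c ∈ C ∧ 1 ≤ c.1},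
        (fun t0 => ((c.1 - 1, fun t1 => c.2 (nd y t0 t1)) : ℕ × ((Nd → Nd) → Prop))) ''
          Cop n (c.1 - 1) E0)
      (hC.union ((hC.subset fun c hc => hc.1).biUnion fun c _ => (cop_finite n _ _).image _))
      y true (by
        rintro c (hc | hc)
        · exact h4 c hc true
        · rw [Set.mem_iUnion₂] at hc
          obtain ⟨c', hc', t0, ht0, rfl⟩ := hc
          exact hP0 (φ c') (Or.inr ⟨c', hc', rfl⟩) t0 ht0)
    refine ⟨nd y E0 E1, hxy, ?_, ?_⟩
    · rintro (_ | ⟨b, ρ⟩) d'
      · cases d'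
        · exact hE0
        · exact hE1
      · cases b
        · exact hE0' ρ d'
        · exact hE1' ρ d'
    · rintro ⟨m, F⟩ hc t ht
      rcases m with _ | m
      · rcases ht with ht | ht | ht
        · have h6 := h3 _ hc
          rw [show t = _ from ht]
          exact h6
        · exact hP0 _ (Or.inl hc) t ht
        · exact hP1 _ (Or.inl hc) t ht
      · rcases ht with ⟨t0, ht0, t1, ht1, rfl⟩ | ht | ht
        · have h6 : ((m, fun t1 => F (nd y t0 t1)) : ℕ × ((Nd → Nd) → Prop)) ∈
              ⋃ c ∈ {c | c ∈ C ∧ 1 ≤ c.1},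
              (fun t0 => ((c.1 - 1, fun t1 => c.2 (nd y t0 t1)) : ℕ × ((Nd → Nd) → Prop))) ''
                Cop n (c.1 - 1) E0 := by
            rw [Set.mem_iUnion₂]
            exact ⟨(m + 1, F), ⟨hc, by simp⟩, t0, ht0, rfl⟩
          exact hP1 _ (Or.inr h6) t1 ht1
        · exact hP0 _ (Or.inl hc) t ht
        · exact hP1 _ (Or.inl hc) t ht

end ultra

theorem t_RAM (h : S_ULT) : S_RAM := by
  obtain ⟨U, hU1, hU2⟩ := h
  intro m n χ
  have key : ∀ F : (Nd → Nd) → Prop, (∀ᶠ π in (U false : Filter Nd), Bd U m F ([] ++ π)) →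
      ∃ e, Emb e ∧ ∀ t ∈ Cop n m e, F t := by
    intro F hF
    obtain ⟨E, _, h1, h2⟩ := build hU1 hU2 n {(m, F)} (Set.finite_singleton _) [] false (by
      rintro c hc
      rw [Set.mem_singleton_iff.1 hc]
      exact hF)
    exact ⟨E, h1, h2 (m, F) rfl⟩
  let F : (Nd → Nd) → Prop := fun t => χ (fun η => t η.1)
  have conv : ∀ (e e' t : Nd → Nd), (∀ η : Nd, η.length ≤ m → t η = e (e' η)) →
      (fun η : LN m => t η.1) = fun η : LN m => e (e' η.1) := by
    intro e e' t ht
    funext η
    exact ht η.1 η.2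
  by_cases hF : ∀ᶠ π in (U false : Filter Nd), Bd U m F ([] ++ π)
  · obtain ⟨e, he, h1⟩ := key F hF
    refine ⟨e, he, Or.inl fun e' he' hl => ?_⟩
    obtain ⟨t, ht, ht'⟩ := mem_cop n m e e' he' hl
    have h2 := h1 t ht
    rw [← conv e e' t ht']
    exact h2
  · rw [← Ultrafilter.eventually_not] at hF
    obtain ⟨e, he, h1⟩ := key (fun t => ¬ F t) (hF.mono fun π hπ => (bd_not U m F _).2 hπ)
    refine ⟨e, he, Or.inr fun e' he' hl => ?_⟩
    obtain ⟨t, ht, ht'⟩ := mem_cop n m e e' he' hl
    have h2 := h1 t ht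
    rw [← conv e e' t ht']
    exact h2

end Pool.Agent.K1H37.PL
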