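import Pool.Agent.K1H49.PL.Def
import Pool.Agent.K1H1.PL.PFS

/-! # Universality of the monster (project PL, piece UNI) -/

set_option autoImplicit false

namespace Pool.Agent.K1H37.PL

open FirstOrder Pool.Agent.K1H49.PL
open Pool.Agent.K1H1.PL (rl rl_realize g1)

universe u

variable {L : FirstOrder.Language.{0, 0}}

/-- projections, uniformly in the structure -/
theorem projFin : ∀ (k : ℕ) {α : Type} (φ : PF L (α ⊕ Fin k)),
    ∃ ψ : PF L α, ∀ (N : Type u) [L.Structure N] (v : α → N),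
      ψ.Realize v ↔ ∃ w : Fin k → N, φ.Realize (Sum.elim v w) := by
  intro k
  induction k with
  | zero =>
    intro α φ
    refine ⟨rl φ (Sum.elim id Fin.elim0), fun N _ v => ?_⟩
    rw [rl_realize]
    have : ∀ w : Fin 0 → N, Sum.elim v w = v ∘ Sum.elim id Fin.elim0 := by
      intro w
      funext x
      rcases x with a | i
      · rfl
      · exact i.elim0
    constructor
    · intro h
      exact ⟨Fin.elim0, by rw [this]; exact h⟩
    · rintro ⟨w, h⟩
      rw [this] at h
      exact h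
  | succ k ih =>
    intro α φ
    obtain ⟨ψ, hψ⟩ := ih (PF.ex (rl φ g1))
    refine ⟨ψ, fun N _ v => ?_⟩
    rw [hψ]
    simp only [PF.Realize, rl_realize]
    have key : ∀ (w : Fin k → N) (a : N),
        (fun o : Option (α ⊕ Fin k) => o.elim a (Sum.elim v w)) ∘ g1 =
          Sum.elim v (Fin.cons a w : Fin (k + 1) → N) := by
      intro w a
      funext x
      rcases x with b | i
      · rfl
      · refine Fin.cases ?_ (fun j => ?_) i <;> rfl
    constructor
    · rintro ⟨w, a, h⟩
      rw [key] at h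
      exact ⟨_, h⟩
    · rintro ⟨w, h⟩
      refine ⟨Fin.tail w, w 0, ?_⟩
      rw [key, Fin.cons_self_tail]
      exact h

/-- existential closure, uniformly in the structure -/
theorem exs2 {A B : Type} [Finite A] (χ : PF L (A ⊕ B)) :
    ∃ ξ : PF L B, ∀ (N : Type u) [L.Structure N] (v : B → N),
      ξ.Realize v ↔ ∃ x : A → N, χ.Realize (Sum.elim x v) := by
  obtain ⟨k, ⟨e⟩⟩ := Finite.exists_equiv_fin A
  obtain ⟨ψ, hψ⟩ := projFin.{u} k (rl χ (Sum.elim (fun a => Sum.inr (e a)) Sum.inl : A ⊕ B → B ⊕ Fin k))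
  refine ⟨ψ, fun N _ v => ?_⟩
  rw [hψ]
  simp only [rl_realize]
  have key : ∀ w : Fin k → N, Sum.elim v w ∘ (Sum.elim (fun a => Sum.inr (e a)) Sum.inl :
      A ⊕ B → B ⊕ Fin k) = Sum.elim (w ∘ e) v := by
    intro w
    funext x
    rcases x with a | b <;> rfl
  constructor
  · rintro ⟨w, h⟩
    rw [key] at h
    exact ⟨_, h⟩
  · rintro ⟨x, h⟩
    refine ⟨x ∘ e.symm, ?_⟩
    rw [key]
    have : (x ∘ e.symm) ∘ e = x := by
      funext a
      simp
    rw [this]
    exact h

/-- homomorphisms preserve positive formulas -/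
theorem hom_pres {N K : Type u} [L.Structure N] [L.Structure K] (f : FirstOrder.Language.Hom L N K)
    {α : Type} (φ : PF L α) : ∀ v : α → N, φ.Realize v → φ.Realize (f ∘ v) := by
  induction φ with
  | eq t s =>
    intro v h
    simp only [PF.Realize] at h ⊢
    rw [FirstOrder.Language.HomClass.realize_term, FirstOrder.Language.HomClass.realize_term, h]
  | rel R ts =>
    intro v h
    simp only [PF.Realize] at h ⊢
    have h1 := f.map_rel R _ h
    have h2 : (fun i => (ts i).realize (f ∘ v)) = f ∘ fun i => (ts i).realize v := by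
      funext i
      exact FirstOrder.Language.HomClass.realize_term f
    rw [h2]
    exact h1
  | top => intro v _; trivial
  | bot => intro v h; exact h
  | and φ ψ h1 h2 => intro v h; exact ⟨h1 v h.1, h2 v h.2⟩
  | or φ ψ h1 h2 => intro v h; exact h.imp (h1 v) (h2 v)
  | ex φ h1 =>
    rintro v ⟨a, h⟩
    refine ⟨f a, ?_⟩
    have h2 := h1 _ h
    have h3 : (f ∘ fun o : Option _ => o.elim a v) = fun o : Option _ => o.elim (f a) (f ∘ v) := by
      funext o
      cases o <;> rfl
    rw [h3] at h2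
    exact h2

theorem t_UNI : S_UNI.{u} := by
  intro L T M _ hJ hM α _ φ hφ N _ hN v hv
  obtain ⟨ξ, hξ⟩ := exs2.{u} (B := Fin 0) (rl φ (Sum.inl : α → α ⊕ Fin 0))
  have hξ' : ∀ (N : Type u) [L.Structure N] (w : Fin 0 → N),
      ξ.Realize w ↔ ∃ x : α → N, φ.Realize x := by
    intro N _ w
    rw [hξ]
    simp only [rl_realize]
    have : ∀ x : α → N, Sum.elim x w ∘ (Sum.inl : α → α ⊕ Fin 0) = x := by
      intro x
      funext a
      rfl
    simp only [this]
  obtain ⟨ψ, hneg, hψ⟩ := hM.ec ξ (Fin.elim0 : Fin 0 → M) (by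
    rw [hξ']
    rintro ⟨x, hx⟩
    exact hφ x hx)
  obtain ⟨K, iK, hK, ⟨f⟩, ⟨g⟩⟩ := hJ M N hM.mod hN
  refine hneg K hK ⟨f ∘ Fin.elim0, ?_, hom_pres f ψ _ hψ⟩
  rw [hξ']
  exact ⟨g ∘ v, hom_pres g φ v hv⟩

end Pool.Agent.K1H37.PL
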